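import Pool.Agent.X107.JT.JT10

/-!
# Eigenvectors of periodic Jacobi matrices on the red-green tree

For `r > g ≥ 2` and every Jacobi matrix on `K_{r,g}`, every eigenvector of its lift to the universal
cover vanishes at every green vertex; moreover the eigenvalues of the lift are exactly the values
taken by `b` on at least `g + 1` red vertices.
-/

namespace Pool.Agent.Results.MP_1155ce_an.VanishesAtGreenVertices

open SimpleGraph

/-- The graph `K_{r,g}`: the red vertices are the `Sum.inl i`, the green ones the `Sum.inr j`. -/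
abbrev K (r g : ℕ) : SimpleGraph (Fin r ⊕ Fin g) :=
  completeBipartiteGraph (Fin r) (Fin g)

/-- `T`, with the map `Ξ`, is the universal cover of `K_{r,g}`: `T` is a tree and `Ξ` maps the
neighbours of every vertex `x` of `T` bijectively onto the neighbours of `Ξ x`. -/
structure IsUniversalCover {V : Type*} {r g : ℕ} (T : SimpleGraph V) (Ξ : V → Fin r ⊕ Fin g) :
    Prop where
  tree : T.IsTree
  covering : ∀ x, Set.BijOn Ξ (T.neighborSet x) ((K r g).neighborSet (Ξ x))

/-- The weight of the edge of `K_{r,g}` joining two vertices, `a i j` being the weight of the edge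
between the `i`-th red and the `j`-th green vertex (and `0` if the two vertices are not joined). -/
def weight {r g : ℕ} (a : Fin r → Fin g → ℝ) : Fin r ⊕ Fin g → Fin r ⊕ Fin g → ℝ
  | .inl i, .inr j => a i j
  | .inr j, .inl i => a i j
  | _, _ => 0

/-- The lift `H` of the Jacobi matrix with parameters `b`, `a`. -/
noncomputable def H {V : Type*} {r g : ℕ} (T : SimpleGraph V) (Ξ : V → Fin r ⊕ Fin g)
    (b : Fin r ⊕ Fin g → ℝ) (a : Fin r → Fin g → ℝ) (u : V → ℂ) (x : V) : ℂ :=
  (b (Ξ x) : ℂ) * u x + ∑ᶠ y ∈ T.neighborSet x, (weight a (Ξ x) (Ξ y) : ℂ) * u y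

/-- `u` is an eigenvector of `H` for the real number `lam`: it is nonzero, square-summable and
`Hu = lam u`. -/
structure IsEigenvector {V : Type*} {r g : ℕ} (T : SimpleGraph V) (Ξ : V → Fin r ⊕ Fin g)
    (b : Fin r ⊕ Fin g → ℝ) (a : Fin r → Fin g → ℝ) (lam : ℝ) (u : V → ℂ) : Prop where
  ne_zero : u ≠ 0
  sq_summable : Summable fun x => ‖u x‖ ^ 2
  eigen : ∀ x, H T Ξ b a u x = lam * u x

theorem result {r g : ℕ} (hg : 2 ≤ g) (hrg : g < r) {V : Type*} {T : SimpleGraph V}
    {Ξ : V → Fin r ⊕ Fin g} (hT : IsUniversalCover T Ξ)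
    (b : Fin r ⊕ Fin g → ℝ) (a : Fin r → Fin g → ℝ) (ha : ∀ i j, 0 < a i j) :
    (∀ (lam : ℝ) (u : V → ℂ), IsEigenvector T Ξ b a lam u →
      ∀ x, (Ξ x).isRight → u x = 0) ∧
    (∀ lam : ℝ, (∃ u : V → ℂ, IsEigenvector T Ξ b a lam u) ↔
      g + 1 ≤ (Finset.univ.filter (fun i : Fin r => b (Sum.inl i) = lam)).card) := by
  have hc : X107.JT.IsUnivCover T (completeBipartiteGraph (Fin r) (Fin g)) Ξ :=
    ⟨hT.tree, hT.covering⟩
  have hw : ∀ c c', weight a c c' = X107.JT.wt a c c' := by
    intro c c'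
    rcases c with i | j <;> rcases c' with i' | j' <;> rfl
  have key : ∀ (lam : ℝ) (u : V → ℂ), IsEigenvector T Ξ b a lam u →
      (∀ x, (Ξ x).isRight → u x = 0) ∧
      (u ≠ 0 → g + 1 ≤ (Finset.univ.filter (fun i => b (Sum.inl i) = lam)).card) := by
    intro lam u hu
    refine X107.JT.krg_complex hc hg hrg ha hu.sq_summable fun x => ?_
    have := hu.eigen x
    unfold H at this
    simp only [hw] at this
    exact this
  refine ⟨fun lam u hu => (key lam u hu).1, ?_⟩
  intro lam
  constructor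
  · rintro ⟨u, hu⟩
    exact (key lam u hu).2 hu.ne_zero
  · intro hX
    obtain ⟨u, h1, h2, h3⟩ := X107.JT.exists_eig hc (by omega) ha hX
    refine ⟨u, h1, h2, fun x => ?_⟩
    unfold H
    simp only [hw]
    exact h3 x

end Pool.Agent.Results.MP_1155ce_an.VanishesAtGreenVertices
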